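import Pool.Agent.W429.TCI.C.Stmts
set_option autoImplicit false

/-! Project TCI (helper429), part C3: the two identities. -/

namespace Pool.Agent.W465.TCI

open Pool.Agent.Helper805.Nuc.Tens Pool.Agent.Helper805.Nuc.NFun Pool.Agent.W429.TCI.C

/-- sorting two indices -/
def s2 (a b : Fin 5) : ℤ × Fin 5 × Fin 5 := if a < b then (1, a, b) else (-1, b, a)

/-- sorting three indices -/
def s3 (a b c : Fin 5) : ℤ × Fin 5 × Fin 5 × Fin 5 :=
  if a < b then (if b < c then (1, a, b, c) else if a < c then (-1, a, c, b) else (1, c, a, b))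
  else (if a < c then (-1, b, a, c) else if b < c then (1, b, c, a) else (-1, c, b, a))

/-- codes -/
abbrev Cd : Type := ℤ × Fin 5 × Fin 5 × Fin 5 × Fin 5 × Fin 5

def k1 (σ : Equiv.Perm (Fin 5)) : Cd :=
  if (s2 (σ 1) (σ 2)).2.1 < (s2 (σ 3) (σ 4)).2.1 then
    (((Equiv.Perm.sign σ : ℤˣ) : ℤ) * ((s2 (σ 1) (σ 2)).1 * (s2 (σ 3) (σ 4)).1), σ 0,
      (s2 (σ 1) (σ 2)).2.1, (s2 (σ 1) (σ 2)).2.2, (s2 (σ 3) (σ 4)).2.1, (s2 (σ 3) (σ 4)).2.2)
  else (((Equiv.Perm.sign σ : ℤˣ) : ℤ) * ((s2 (σ 1) (σ 2)).1 * (s2 (σ 3) (σ 4)).1), σ 0,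
      (s2 (σ 3) (σ 4)).2.1, (s2 (σ 3) (σ 4)).2.2, (s2 (σ 1) (σ 2)).2.1, (s2 (σ 1) (σ 2)).2.2)

def k2 (σ : Equiv.Perm (Fin 5)) : Cd :=
  (((Equiv.Perm.sign σ : ℤˣ) : ℤ) * (s3 (σ 1) (σ 2) (σ 3)).1, σ 0, (s3 (σ 1) (σ 2) (σ 3)).2.1,
    (s3 (σ 1) (σ 2) (σ 3)).2.2.1, (s3 (σ 1) (σ 2) (σ 3)).2.2.2, σ 4)

def k3 (σ : Equiv.Perm (Fin 5)) : Cd :=
  (((Equiv.Perm.sign σ : ℤˣ) : ℤ) * ((s3 (σ 0) (σ 1) (σ 2)).1 * (s2 (σ 3) (σ 4)).1),
    (s3 (σ 0) (σ 1) (σ 2)).2.1, (s3 (σ 0) (σ 1) (σ 2)).2.2.1, (s3 (σ 0) (σ 1) (σ 2)).2.2.2,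
    (s2 (σ 3) (σ 4)).2.1, (s2 (σ 3) (σ 4)).2.2)

def r1 : List Cd :=
  [(1,0,1,2,3,4),(-1,0,1,3,2,4),(1,0,1,4,2,3),(-1,1,0,2,3,4),(1,1,0,3,2,4),(-1,1,0,4,2,3),
   (1,2,0,1,3,4),(-1,2,0,3,1,4),(1,2,0,4,1,3),(-1,3,0,1,2,4),(1,3,0,2,1,4),(-1,3,0,4,1,2),
   (1,4,0,1,2,3),(-1,4,0,2,1,3),(1,4,0,3,1,2)]

def r2 : List Cd :=
  [(-1,0,2,3,4,1),(1,0,1,3,4,2),(-1,0,1,2,4,3),(1,0,1,2,3,4),
   (1,1,2,3,4,0),(-1,1,0,3,4,2),(1,1,0,2,4,3),(-1,1,0,2,3,4),
   (-1,2,1,3,4,0),(1,2,0,3,4,1),(-1,2,0,1,4,3),(1,2,0,1,3,4),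
   (1,3,1,2,4,0),(-1,3,0,2,4,1),(1,3,0,1,4,2),(-1,3,0,1,2,4),
   (-1,4,1,2,3,0),(1,4,0,2,3,1),(-1,4,0,1,3,2),(1,4,0,1,2,3)]

def r3 : List Cd :=
  [(1,2,3,4,0,1),(-1,1,3,4,0,2),(1,1,2,4,0,3),(-1,1,2,3,0,4),(1,0,3,4,1,2),(-1,0,2,4,1,3),
   (1,0,2,3,1,4),(1,0,1,4,2,3),(-1,0,1,3,2,4),(1,0,1,2,3,4)]

theorem e1 : (Finset.univ : Finset (Equiv.Perm (Fin 5))).val.map k1 =
    ((r1.flatMap (fun w => List.replicate 8 w) : List Cd) : Multiset Cd) := by decide +kernel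

theorem e2 : (Finset.univ : Finset (Equiv.Perm (Fin 5))).val.map k2 =
    ((r2.flatMap (fun w => List.replicate 6 w) : List Cd) : Multiset Cd) := by decide +kernel

theorem e3 : (Finset.univ : Finset (Equiv.Perm (Fin 5))).val.map k3 =
    ((r3.flatMap (fun w => List.replicate 12 w) : List Cd) : Multiset Cd) := by decide +kernel

theorem sum_rep {α M : Type} [AddCommMonoid M] (F : α → M) (n : ℕ) (l : List α) :
    ((l.flatMap (fun w => List.replicate n w)).map F).sum = n • (l.map F).sum := by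
  induction l with
  | nil => simp
  | cons a t ih =>
    rw [List.flatMap_cons, List.map_append, List.sum_append, ih, List.map_cons, List.sum_cons,
      List.map_replicate, List.sum_replicate, smul_add]

theorem sum_code {M : Type} [AddCommMonoid M] (k : Equiv.Perm (Fin 5) → Cd) (F : Cd → M) (n : ℕ)
    (l : List Cd) (h : (Finset.univ : Finset (Equiv.Perm (Fin 5))).val.map k =
      ((l.flatMap (fun w => List.replicate n w) : List Cd) : Multiset Cd)) :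
    ∑ σ : Equiv.Perm (Fin 5), F (k σ) = n • (l.map F).sum := by
  have h1 : ∑ σ : Equiv.Perm (Fin 5), F (k σ) =
      (((Finset.univ : Finset (Equiv.Perm (Fin 5))).val.map k).map F).sum := by
    rw [Multiset.map_map]; rfl
  rw [h1, h, Multiset.map_coe, Multiset.sum_coe, sum_rep]

section
variable {B : Type} [NonUnitalNonAssocRing B]

theorem br_smul_l (n : ℤ) (a b : B) : br (n • a) b = n • br a b := by
  unfold br
  rw [smul_mul_assoc, mul_smul_comm, smul_sub]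

theorem br_smul_r (n : ℤ) (a b : B) : br a (n • b) = n • br a b := by
  unfold br
  rw [smul_mul_assoc, mul_smul_comm, smul_sub]

theorem jo_smul_l (n : ℤ) (a b : B) : jo (n • a) b = n • jo a b := by
  unfold jo
  rw [smul_mul_assoc, mul_smul_comm, smul_add]

theorem jo_smul_r (n : ℤ) (a b : B) : jo a (n • b) = n • jo a b := by
  unfold jo
  rw [smul_mul_assoc, mul_smul_comm, smul_add]

theorem br_add_l (a b c : B) : br (a + b) c = br a c + br b c := by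
  unfold br
  rw [add_mul, mul_add]; abel

theorem br_add_r (a b c : B) : br a (b + c) = br a b + br a c := by
  unfold br
  rw [add_mul, mul_add]; abel

theorem jo_add_l (a b c : B) : jo (a + b) c = jo a c + jo b c := by
  unfold jo
  rw [add_mul, mul_add]; abel

theorem jo_add_r (a b c : B) : jo a (b + c) = jo a b + jo a c := by
  unfold jo
  rw [add_mul, mul_add]; abel

theorem br_zero_l (a : B) : br 0 a = 0 := by
  unfold br; simp

theorem br_s2 (u : Fin 5 → B) (j k : Fin 5) :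
    br (u j) (u k) = (s2 j k).1 • br (u (s2 j k).2.1) (u (s2 j k).2.2) := by
  unfold s2
  split_ifs
  · simp
  · simp [br]

theorem as_s3 (hA : IsAlt B) (u : Fin 5 → B) (i j k : Fin 5) :
    as (u i) (u j) (u k) = (s3 i j k).1 •
      as (u (s3 i j k).2.1) (u (s3 i j k).2.2.1) (u (s3 i j k).2.2.2) := by
  unfold s3
  split_ifs
  · simp
  · simp only [neg_smul, one_smul]
    exact hA.as_right _ _ _
  · simp only [one_smul]
    rw [hA.as_right, hA.as_left, neg_neg]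
  · simp only [neg_smul, one_smul]
    exact hA.as_left _ _ _
  · simp only [one_smul]
    rw [hA.as_left, hA.as_right, neg_neg]
  · simp only [neg_smul, one_smul]
    rw [hA.as_left, hA.as_right, hA.as_left, neg_neg]

def T1 (u : Fin 5 → B) (y : B) (i j k l m : Fin 5) : B :=
  br (br (u i) y) (jo (br (u j) (u k)) (br (u l) (u m)))
def T2 (u : Fin 5 → B) (y : B) (i j k l m : Fin 5) : B :=
  jo (br (u i) (as (u j) (u k) (u l))) (br (u m) y)
def T3 (u : Fin 5 → B) (y : B) (i j k l m : Fin 5) : B :=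
  jo (br y (as (u i) (u j) (u k))) (br (u l) (u m))

theorem t1 (u : Fin 5 → B) (y : B) (σ : Equiv.Perm (Fin 5)) :
    ((Equiv.Perm.sign σ : ℤˣ) : ℤ) • T1 u y (σ 0) (σ 1) (σ 2) (σ 3) (σ 4) =
      (fun w : Cd => w.1 • T1 u y w.2.1 w.2.2.1 w.2.2.2.1 w.2.2.2.2.1 w.2.2.2.2.2) (k1 σ) := by
  unfold k1 T1
  rw [br_s2 u (σ 1), br_s2 u (σ 3)]
  split_ifs
  · simp only [jo_smul_l, jo_smul_r, br_smul_r, smul_smul, mul_comm, mul_left_comm, mul_assoc]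
  · simp only [jo_smul_l, jo_smul_r, br_smul_r, smul_smul]
    rw [show jo (br (u (s2 (σ 3) (σ 4)).2.1) (u (s2 (σ 3) (σ 4)).2.2))
      (br (u (s2 (σ 1) (σ 2)).2.1) (u (s2 (σ 1) (σ 2)).2.2)) =
      jo (br (u (s2 (σ 1) (σ 2)).2.1) (u (s2 (σ 1) (σ 2)).2.2))
      (br (u (s2 (σ 3) (σ 4)).2.1) (u (s2 (σ 3) (σ 4)).2.2)) from by unfold jo; exact add_comm _ _]
    simp only [mul_comm, mul_left_comm, mul_assoc]

theorem t2 (hA : IsAlt B) (u : Fin 5 → B) (y : B) (σ : Equiv.Perm (Fin 5)) :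
    ((Equiv.Perm.sign σ : ℤˣ) : ℤ) • T2 u y (σ 0) (σ 1) (σ 2) (σ 3) (σ 4) =
      (fun w : Cd => w.1 • T2 u y w.2.1 w.2.2.1 w.2.2.2.1 w.2.2.2.2.1 w.2.2.2.2.2) (k2 σ) := by
  unfold k2 T2
  rw [as_s3 hA u (σ 1)]
  simp only [jo_smul_l, br_smul_r, smul_smul]

theorem t3 (hA : IsAlt B) (u : Fin 5 → B) (y : B) (σ : Equiv.Perm (Fin 5)) :
    ((Equiv.Perm.sign σ : ℤˣ) : ℤ) • T3 u y (σ 0) (σ 1) (σ 2) (σ 3) (σ 4) =
      (fun w : Cd => w.1 • T3 u y w.2.1 w.2.2.1 w.2.2.2.1 w.2.2.2.2.1 w.2.2.2.2.2) (k3 σ) := by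
  unfold k3 T3
  rw [as_s3 hA u (σ 0), br_s2 u (σ 3)]
  simp only [jo_smul_l, jo_smul_r, br_smul_r, smul_smul]
  congr 1
  ring

/-- the three partial sums -/
def S1 (u : Fin 5 → B) (y : B) : B :=
  (r1.map (fun w : Cd => w.1 • T1 u y w.2.1 w.2.2.1 w.2.2.2.1 w.2.2.2.2.1 w.2.2.2.2.2)).sum
def S2 (u : Fin 5 → B) (y : B) : B :=
  (r2.map (fun w : Cd => w.1 • T2 u y w.2.1 w.2.2.1 w.2.2.2.1 w.2.2.2.2.1 w.2.2.2.2.2)).sum
def S3 (u : Fin 5 → B) (y : B) : B :=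
  (r3.map (fun w : Cd => w.1 • T3 u y w.2.1 w.2.2.1 w.2.2.2.1 w.2.2.2.2.1 w.2.2.2.2.2)).sum

theorem nf_eq (hA : IsAlt B) (u : Fin 5 → B) (y : B) :
    nf u y = (24 : ℤ) • (S1 u y + (2 : ℤ) • S2 u y + (4 : ℤ) • S3 u y) := by
  have h : nf u y = (3 : ℤ) • ∑ σ : Equiv.Perm (Fin 5), ((Equiv.Perm.sign σ : ℤˣ) : ℤ) •
      T1 u y (σ 0) (σ 1) (σ 2) (σ 3) (σ 4) +
      (8 : ℤ) • ∑ σ : Equiv.Perm (Fin 5), ((Equiv.Perm.sign σ : ℤˣ) : ℤ) •
      T2 u y (σ 0) (σ 1) (σ 2) (σ 3) (σ 4) +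
      (8 : ℤ) • ∑ σ : Equiv.Perm (Fin 5), ((Equiv.Perm.sign σ : ℤˣ) : ℤ) •
      T3 u y (σ 0) (σ 1) (σ 2) (σ 3) (σ 4) := by
    unfold nf
    rw [Finset.smul_sum, Finset.smul_sum, Finset.smul_sum, ← Finset.sum_add_distrib,
      ← Finset.sum_add_distrib]
    refine Finset.sum_congr rfl fun σ _ => ?_
    unfold Fp T1 T2 T3
    rw [smul_add, smul_add, smul_comm (3 : ℤ), smul_comm (8 : ℤ), smul_comm (8 : ℤ)]
  have a1 : ∑ σ : Equiv.Perm (Fin 5), ((Equiv.Perm.sign σ : ℤˣ) : ℤ) •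
      T1 u y (σ 0) (σ 1) (σ 2) (σ 3) (σ 4) = (8 : ℕ) • S1 u y :=
    (Finset.sum_congr rfl fun σ _ => t1 u y σ).trans (sum_code k1
      (fun w : Cd => w.1 • T1 u y w.2.1 w.2.2.1 w.2.2.2.1 w.2.2.2.2.1 w.2.2.2.2.2) 8 r1 e1)
  have a2 : ∑ σ : Equiv.Perm (Fin 5), ((Equiv.Perm.sign σ : ℤˣ) : ℤ) •
      T2 u y (σ 0) (σ 1) (σ 2) (σ 3) (σ 4) = (6 : ℕ) • S2 u y :=
    (Finset.sum_congr rfl fun σ _ => t2 hA u y σ).trans (sum_code k2
      (fun w : Cd => w.1 • T2 u y w.2.1 w.2.2.1 w.2.2.2.1 w.2.2.2.2.1 w.2.2.2.2.2) 6 r2 e2)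
  have a3 : ∑ σ : Equiv.Perm (Fin 5), ((Equiv.Perm.sign σ : ℤˣ) : ℤ) •
      T3 u y (σ 0) (σ 1) (σ 2) (σ 3) (σ 4) = (12 : ℕ) • S3 u y :=
    (Finset.sum_congr rfl fun σ _ => t3 hA u y σ).trans (sum_code k3
      (fun w : Cd => w.1 • T3 u y w.2.1 w.2.2.1 w.2.2.2.1 w.2.2.2.2.1 w.2.2.2.2.2) 12 r3 e3)
  rw [h, a1, a2, a3]
  rw [← natCast_zsmul, ← natCast_zsmul, ← natCast_zsmul, smul_add, smul_add, smul_smul, smul_smul,
    smul_smul, smul_smul, smul_smul]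
  norm_num

/-- the list without the outer commutator -/
def nL : FS :=
  r1.map (fun w => (w.1, Tm.br (.br (.v w.2.1) (.v 5))
    (.jo (.br (.v w.2.2.1) (.v w.2.2.2.1)) (.br (.v w.2.2.2.2.1) (.v w.2.2.2.2.2))))) ++
  (r2.map (fun w => (2 * w.1, Tm.jo (.br (.v w.2.1) (.as (.v w.2.2.1) (.v w.2.2.2.1)
    (.v w.2.2.2.2.1))) (.br (.v w.2.2.2.2.2) (.v 5)))) ++
  r3.map (fun w => (4 * w.1, Tm.jo (.br (.v 5) (.as (.v w.2.1) (.v w.2.2.1) (.v w.2.2.2.1)))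
    (.br (.v w.2.2.2.2.1) (.v w.2.2.2.2.2)))))

theorem nfL_eq : nfL = nL.map (fun q => (q.1, Tm.br q.2 (.v 6))) := rfl

theorem sum_smul_list {α : Type} (n : ℤ) (F : α → B) (l : List α) :
    (l.map (fun w => n • F w)).sum = n • (l.map F).sum := by
  induction l with
  | nil => simp
  | cons a t ih => simp only [List.map_cons, List.sum_cons, ih, smul_add]

theorem nL_sum (a : ℕ → B) : (nL.map (fun q => q.1 • q.2.ev0 a)).sum =
    S1 (fun i : Fin 5 => a i) (a 5) + (2 : ℤ) • S2 (fun i : Fin 5 => a i) (a 5) +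
      (4 : ℤ) • S3 (fun i : Fin 5 => a i) (a 5) := by
  unfold nL S1 S2 S3
  rw [List.map_append, List.map_append, List.sum_append, List.sum_append, List.map_map,
    List.map_map, List.map_map, ← sum_smul_list, ← sum_smul_list, ← add_assoc]
  simp only [smul_smul]
  rfl

theorem br_sum (a : ℕ → B) (L : FS) (g : ℕ) :
    ((L.map (fun q => (q.1, Tm.br q.2 (.v g)))).map (fun q => q.1 • q.2.ev0 a)).sum =
      br ((L.map (fun q => q.1 • q.2.ev0 a)).sum) (a g) := by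
  induction L with
  | nil => simp [br_zero_l]
  | cons q t ih =>
    simp only [List.map_cons, List.sum_cons] at ih ⊢
    rw [ih, br_add_l, br_smul_l]
    rfl

/-- the trilinear form -/
def hh (a b g x y z : B) : B := br (br (jo (br x a) (br y b)) z) g

theorem hh1 (a b g x x' y z : B) : hh a b g (x + x') y z = hh a b g x y z + hh a b g x' y z := by
  unfold hh
  rw [br_add_l, jo_add_l, br_add_l, br_add_l]

theorem hh2 (a b g x y y' z : B) : hh a b g x (y + y') z = hh a b g x y z + hh a b g x y' z := by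
  unfold hh
  rw [br_add_l, jo_add_r, br_add_l, br_add_l]

theorem hh3 (a b g x y z z' : B) : hh a b g x y (z + z') = hh a b g x y z + hh a b g x y z' := by
  unfold hh
  rw [br_add_r, br_add_l]

end

theorem c3 : S_C3 := by
  intro B _ hA h2 h3 hN hP
  constructor
  · intro a
    rw [nfL_eq, br_sum, nL_sum]
    have h := hN (fun i : Fin 5 => a i) (a 5) (a 6)
    rw [nf_eq hA, br_smul_l] at h
    set W := br (S1 (fun i : Fin 5 => a i) (a 5) + (2 : ℤ) • S2 (fun i : Fin 5 => a i) (a 5) +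
      (4 : ℤ) • S3 (fun i : Fin 5 => a i) (a 5)) (a 6) with hW
    have h4 : ((2 : ℤ) • ((2 : ℤ) • ((2 : ℤ) • ((3 : ℤ) • W)))) = 0 := by
      rw [smul_smul, smul_smul, smul_smul]
      norm_num
      exact h
    have k2 : ∀ b : B, (2 : ℤ) • b = 0 → b = 0 := fun b hb => h2 b (by rw [← two_zsmul]; exact hb)
    have k3 : ∀ b : B, (3 : ℤ) • b = 0 → b = 0 := fun b hb => h3 b (by
      have : b + b + b = (3 : ℤ) • b := by
        rw [show (3 : ℤ) = 1 + 1 + 1 by norm_num, add_smul, add_smul, one_smul]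
      rw [this]; exact hb)
    exact k3 _ (k2 _ (k2 _ (k2 _ h4)))
  · intro a
    have hG : ∀ x y y' g : B, br (br (jo (br x y) (br x y')) x) g = 0 := by
      intro x y y' g
      have e := hP x (y + y') g
      have e1 := hP x y g
      have e2 := hP x y' g
      rw [br_add_r] at e
      have : (br x y + br x y') * (br x y + br x y') =
          br x y * br x y + br x y' * br x y' + jo (br x y) (br x y') := by
        unfold jo
        rw [add_mul, mul_add, mul_add]; abel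
      rw [this, br_add_l, br_add_l, br_add_l, br_add_l, e1, e2] at e
      simpa using e
    have hH : ∀ x : B, hh (a 3) (a 4) (a 5) x x x = 0 := fun x => hG x (a 3) (a 4) (a 5)
    have key : hh (a 3) (a 4) (a 5) (a 0) (a 1) (a 2) + (hh (a 3) (a 4) (a 5) (a 0) (a 2) (a 1) +
        (hh (a 3) (a 4) (a 5) (a 1) (a 0) (a 2) + (hh (a 3) (a 4) (a 5) (a 1) (a 2) (a 0) +
        (hh (a 3) (a 4) (a 5) (a 2) (a 0) (a 1) + hh (a 3) (a 4) (a 5) (a 2) (a 1) (a 0))))) = 0 := by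
      have q1 := hH (a 0 + a 1 + a 2)
      have q2 := hH (a 0 + a 1)
      have q3 := hH (a 0 + a 2)
      have q4 := hH (a 1 + a 2)
      have q5 := hH (a 0)
      have q6 := hH (a 1)
      have q7 := hH (a 2)
      simp only [hh1, hh2, hh3, q5, q6, q7] at q1 q2 q3 q4
      have : ∀ s t : B, s - t = 0 → t = 0 → s = 0 := fun s t h1 h2 => by rw [h2, sub_zero] at h1; exact h1
      have q8 := congrArg₂ (· - ·) (congrArg₂ (· - ·) (congrArg₂ (· - ·) q1 q2) q3) q4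
      simp only [sub_zero] at q8
      rw [← q8]
      abel
    have e : (phL.map (fun q => q.1 • q.2.ev0 a)).sum =
      hh (a 3) (a 4) (a 5) (a 0) (a 1) (a 2) + (hh (a 3) (a 4) (a 5) (a 0) (a 2) (a 1) +
        (hh (a 3) (a 4) (a 5) (a 1) (a 0) (a 2) + (hh (a 3) (a 4) (a 5) (a 1) (a 2) (a 0) +
        (hh (a 3) (a 4) (a 5) (a 2) (a 0) (a 1) + hh (a 3) (a 4) (a 5) (a 2) (a 1) (a 0))))) := by
      simp [phL, hh, Tm.ev0]
    rw [e, key]

end Pool.Agent.W465.TCI
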